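import Pool.Agent.helper84.LP.SpecG
import Pool.Agent.helper25.HH.HBK

/-!
# MP_07c750 (quantum unique ergodicity), PROJECT LP, row BKA, the function half
-/

open scoped MatrixGroups ContDiff Topology UpperHalfPlane ComplexConjugate
open UpperHalfPlane MeasureTheory Filter Set

set_option autoImplicit false

namespace Pool.Agent.LP

open Pool.Agent.RS
open Pool.Agent.MS (bq BB BA SF pf)
open Pool.Agent.HV (FW)
open Pool.Agent.EN (XG MG mkX mkM fl pr)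
open Pool.Agent.ER (Low LowJ)

noncomputable section

/-- the function half of row BKA: the product over the windows `i = 1..G` -/
theorem BKA2_fun (hBXM : MS.BXM_stmt) (hSFP : IR.SFP_stmt) (hCOV : IR.COV_stmt) (hFLI : IR.FLI_stmt) (hXFL : EN.XFL_stmt)
    (Γ : Subgroup SL(2, ℝ)) (μ : Measure (XG Γ)) (a : ℝ) (hΓ : QU.SurfaceGroup Γ) (hμ : IsProbabilityMeasure μ) (hinv : ∀ t, μ.map (fl Γ t) = μ) (ha : 0 ≤ a)
    (η δ : ℝ) (G : ℕ) (hη : 0 < η) (hδ : 0 < δ) (hG : 1 ≤ G) :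
    ∃ (b : ℝ) (m0 : ℕ), 0 < b ∧ b ≤ 1 / 1600 ∧ ∀ m : ℕ, m0 ≤ m → ∃ (A : ℕ → Finset SL(2, ℝ)) (Ψ Ψa Ψn Ψl : SL(2, ℝ) → ℝ) (B : ℝ),
      (∀ i : ℕ, 1 ≤ i → i ≤ G → ((A i).card : ℝ) ≤ Real.exp ((a + η) * (i * m))) ∧
      SF Γ Ψ Ψa Ψn Ψl ∧ (∀ g, 0 ≤ Ψ g ∧ Ψ g ≤ 1) ∧ (∀ g, |Ψn g| ≤ B) ∧ (∀ g, |Ψl g| ≤ B) ∧
      μ.real (Low Γ μ a \ IR.one Γ Ψ) ≤ δ ∧
      ∀ k, Ψ k ≠ 0 → ∀ i : ℕ, 1 ≤ i → i ≤ G → k * aM (G * m) ∈ FW Γ (A i) (16 * b) (Real.exp (-(i * m))) := by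
  have hGpos : (0 : ℝ) < (G : ℝ) := by
    have h1 : 0 < G := by omega
    exact_mod_cast h1
  obtain ⟨a0, ha0, -, hB⟩ := hBXM Γ hΓ
  obtain ⟨b, hb, hba, hbc⟩ : ∃ b : ℝ, 0 < b ∧ b ≤ a0 ∧ b ≤ 1 / 1600 :=
    ⟨min a0 (1 / 1600), lt_min ha0 (by norm_num), min_le_left _ _, min_le_right _ _⟩
  obtain ⟨CB, hCB, hBX⟩ := hB b hb hba
  obtain ⟨n0, hn0⟩ := hCOV Γ μ a hΓ hμ hinv ha b η (δ / G) hb hη (div_pos hδ hGpos)
  refine ⟨b, n0, hb, hbc, fun m hm => ?_⟩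
  have hm0 : (0 : ℝ) ≤ (m : ℝ) := Nat.cast_nonneg m
  have hAf : ∀ i : ℕ, ∃ A : Finset SL(2, ℝ), 1 ≤ i → (A.card : ℝ) ≤ Real.exp ((a + η) * (i * m)) ∧
      μ.real (Low Γ μ a \ IR.BX Γ A b (i * m)) ≤ δ / G := by
    intro i
    by_cases hi : 1 ≤ i
    · have h1 : m ≤ i * m := Nat.le_mul_of_pos_left m hi
      obtain ⟨A, hA, mA⟩ := hn0 (i * m) (le_trans hm h1)
      have e1 : ((i * m : ℕ) : ℝ) = (i : ℝ) * m := by push_cast; ring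
      rw [e1] at hA mA
      exact ⟨A, fun _ => ⟨hA, mA⟩⟩
    · exact ⟨∅, fun h => absurd h hi⟩
  choose Af hAf' using hAf
  have hbox : ∀ i : ℕ, 1 ≤ i → ∃ Ψ : SL(2, ℝ) → ℝ, HH.HBK_P Γ μ (Low Γ μ a) (δ / G)
      {g | g * aM (G * m) ∈ FW Γ (Af i) (16 * b) (Real.exp (-(i * m)))} Ψ := by
    intro i hi
    have h1 : (0 : ℝ) ≤ (i : ℝ) * m := mul_nonneg (Nat.cast_nonneg i) hm0
    exact HH.HBK_box hSFP hFLI hXFL hΓ hμ hinv hBX ((i : ℝ) * m) ((G : ℝ) * m) (Af i) h1 (hAf' i hi).2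
  have PF : ∀ k : ℕ, ∃ Ψ : SL(2, ℝ) → ℝ, HH.HBK_P Γ μ (Low Γ μ a) ((k + 1) * (δ / G))
      {g | ∀ i : ℕ, 1 ≤ i → i ≤ k + 1 → g * aM (G * m) ∈ FW Γ (Af i) (16 * b) (Real.exp (-(i * m)))} Ψ := by
    intro k
    induction k with
    | zero =>
      obtain ⟨Ψ, hP⟩ := hbox 1 le_rfl
      refine ⟨Ψ, hP.1, ?_, ?_⟩
      · obtain ⟨B, hB1, hB2⟩ := hP.2.1
        refine ⟨B, hB1.trans (le_of_eq ?_), hB2⟩
        push_cast
        ring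
      · intro g hg i h1 h2
        obtain rfl : i = 1 := by omega
        exact hP.2.2 g hg
    | succ k ih =>
      obtain ⟨Ψ, hP⟩ := ih
      obtain ⟨Φ, hΦ⟩ := hbox (k + 2) (by omega)
      have hM := HH.HBK_mul hSFP hP hΦ
      refine ⟨_, hM.1, ?_, ?_⟩
      · obtain ⟨B, hB1, hB2⟩ := hM.2.1
        refine ⟨B, hB1.trans (le_of_eq ?_), hB2⟩
        push_cast
        ring
      · intro g hg
        have h1 := hM.2.2 g hg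
        intro i hi1 hi2
        rcases Nat.lt_or_ge i (k + 2) with h | h
        · exact h1.1 i hi1 (by omega)
        · obtain rfl : i = k + 2 := by omega
          exact h1.2
  obtain ⟨Ψ, ⟨Ψa, Ψn, Ψl, B, S0, I0, N0, L0⟩, ⟨B', mB', oB'⟩, sP⟩ := PF (G - 1)
  have eG : ((G - 1 : ℕ) : ℝ) + 1 = (G : ℝ) := by
    rw [Nat.cast_sub hG]
    push_cast
    ring
  refine ⟨Af, Ψ, Ψa, Ψn, Ψl, B, fun i h1 _ => (hAf' i h1).1, S0, I0, N0, L0, ?_, ?_⟩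
  · have hsub : Low Γ μ a \ IR.one Γ Ψ ⊆ B' := by
      intro x hx
      obtain ⟨g, rfl⟩ := (hXFL Γ).2.2.2.2.1 x
      by_contra hcon
      exact hx.2 ⟨g, rfl, oB' g hx.1 hcon⟩
    refine (measureReal_mono hsub).trans (mB'.trans (le_of_eq ?_))
    rw [eG]
    field_simp
  · intro k hk i h1 h2
    exact sP k hk i h1 (by omega)

end

end Pool.Agent.LP
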