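import Pool.Agent.helper84.LP.SpecG

/-!
# MP_07c750 (quantum unique ergodicity), PROJECT LP, row FCH: the chain
-/

open scoped MatrixGroups ContDiff Topology UpperHalfPlane ComplexConjugate
open UpperHalfPlane MeasureTheory Filter Set

set_option autoImplicit false

namespace Pool.Agent.LP

open Pool.Agent.RS
open Pool.Agent.MS (bq BB BA SF pf)
open Pool.Agent.HV (FW)
open Pool.Agent.EN (XG MG mkX mkM fl pr)
open Pool.Agent.ER (Low LowJ)

noncomputable section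

/-- `FF` is monotone -/
theorem FCH_mono (Γ : Subgroup SL(2, ℝ)) (μ : Measure (XG Γ)) (a η : ℝ) (G : ℕ) (E E' : Set (XG Γ)) [IsProbabilityMeasure μ] (hE : E ⊆ E') (h : FF Γ μ a η G E') : FF Γ μ a η G E := by
  intro δ hδ
  obtain ⟨C3, hC3, h1⟩ := h δ hδ
  refine ⟨C3, hC3, fun C1 Q hC1 hQ => ?_⟩
  obtain ⟨m0, h2⟩ := h1 C1 Q hC1 hQ
  refine ⟨m0, fun m hm => ?_⟩
  obtain ⟨Ψ, Ψa, Ψn, Ψl, hS, h01, hn, hl, hμ, hL⟩ := h2 m hm
  refine ⟨Ψ, Ψa, Ψn, Ψl, hS, h01, hn, hl, ?_, hL⟩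
  exact le_trans (measureReal_mono (diff_subset_diff_left hE)) hμ

/-- the numerical inequality of the step -/
theorem FCH_num (a h β η g κ : ℝ) (G : ℕ) (ha0 : 0 ≤ a) (ha : a < 1 / 2) (hκ : κ = (1 - a) - h * (1 / 2 + a)) (hκ0 : 0 < κ) (hg : g ≤ κ) (hη : 5 * η ≤ κ / 8) (hG : 6 / (G : ℝ) ≤ κ / 8) (hβ : β ≤ h) :
    a + β - 1 + 5 * η + 6 / (G : ℝ) < (β - g) * (1 / 2 - a) := by
  have h1 : β * (1 / 2 + a) ≤ h * (1 / 2 + a) := mul_le_mul_of_nonneg_right hβ (by linarith)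
  have h2 : g * (1 / 2 - a) ≤ κ * (1 / 2 - a) := mul_le_mul_of_nonneg_right hg (by linarith)
  have h3 : κ * (1 / 2 - a) ≤ κ / 2 := by nlinarith
  nlinarith

theorem FCH_proof (hFGD : FGD_stmt) (hFTR : FTR_stmt) (hFUN : FUN_stmt) (hCOL : COL_stmt) : FCH_stmt := by
  intro a h ha0 ha hh0 hh hah
  obtain ⟨κ, hκ⟩ : ∃ κ : ℝ, κ = (1 - a) - h * (1 / 2 + a) := ⟨_, rfl⟩
  have hκ0 : 0 < κ := by rw [hκ]; nlinarith
  obtain ⟨g, hg⟩ : ∃ g : ℝ, g = min κ (1 / 4) := ⟨_, rfl⟩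
  have hg0 : 0 < g := by rw [hg]; exact lt_min hκ0 (by norm_num)
  have hgκ : g ≤ κ := by rw [hg]; exact min_le_left _ _
  have hg4 : g ≤ 1 / 4 := by rw [hg]; exact min_le_right _ _
  obtain ⟨η, hη⟩ : ∃ η : ℝ, η = min (κ / 40) (min (1 / 16) (min ((1 - h) / 2) (1 / 2))) := ⟨_, rfl⟩
  have hη0 : 0 < η := by
    rw [hη]
    exact lt_min (by linarith) (lt_min (by norm_num) (lt_min (by linarith) (by norm_num)))
  have hη1 : η ≤ κ / 40 := by rw [hη]; exact min_le_left _ _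
  have hη2 : η ≤ 1 / 16 := by rw [hη]; exact le_trans (min_le_right _ _) (min_le_left _ _)
  have hη3 : η ≤ (1 - h) / 2 := by
    rw [hη]; exact le_trans (min_le_right _ _) (le_trans (min_le_right _ _) (min_le_left _ _))
  obtain ⟨M, hM⟩ : ∃ M : ℕ, 48 / κ ≤ (M : ℝ) := exists_nat_ge _
  obtain ⟨G, hGdef⟩ : ∃ G : ℕ, G = 2 * (M + 1) := ⟨_, rfl⟩
  have hGeven : Even G := by rw [hGdef]; exact even_two_mul _
  have hG2 : 2 ≤ G := by omega
  have hGR : (48 : ℝ) / κ ≤ (G : ℝ) := by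
    have h1 : (G : ℝ) = 2 * ((M : ℝ) + 1) := by rw [hGdef]; push_cast; ring
    have h2 : (0 : ℝ) ≤ (M : ℝ) := Nat.cast_nonneg _
    rw [h1]; linarith
  have hGpos : (0 : ℝ) < (G : ℝ) := by
    have h1 : 0 < G := by omega
    exact_mod_cast h1
  have hG6 : 6 / (G : ℝ) ≤ κ / 8 := by
    rw [div_le_div_iff₀ hGpos (by norm_num)]
    have h1 : 48 ≤ (G : ℝ) * κ := (div_le_iff₀ hκ0).mp hGR
    linarith
  refine ⟨η, G, hη0, by omega, ?_⟩
  intro Γ μ E hΓ hμ hinv hCO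
  haveI := hμ
  have key : ∀ k : ℕ, ∀ (β : ℝ) (E : Set (XG Γ)), 0 ≤ β → β ≤ h → β ≤ (1 - a - 3 * η) + k * g → CO Γ μ E β → FF Γ μ a η G E := by
    intro k
    induction k with
    | zero =>
      intro β E hβ0 hβh hβt hE
      have h1 : β ≤ 1 - a - 3 * η := by simpa using hβt
      exact hFTR Γ μ E a η β G hΓ hμ hinv ha0 hη0 (by omega) (by linarith) hE
    | succ k ih =>
      intro β E hβ0 hβh hβt hE
      by_cases hc : β ≤ (1 - a - 3 * η) + k * g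
      · exact ih β E hβ0 hβh hc hE
      · have hc' : (1 - a - 3 * η) + k * g < β := not_le.mp hc
        have hk : (0 : ℝ) ≤ (k : ℝ) * g := mul_nonneg (Nat.cast_nonneg _) hg0.le
        have hβg : 0 ≤ β - g := by linarith
        have hβt' : β ≤ (1 - a - 3 * η) + ((k : ℝ) + 1) * g := by
          have h1 : ((k + 1 : ℕ) : ℝ) = (k : ℝ) + 1 := by push_cast; ring
          rw [h1] at hβt
          exact hβt
        have hF1 : FF Γ μ a η G (E \ Low Γ μ (β - g)) :=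
          hFGD Γ μ E a η β (β - g) G hΓ hμ hinv ha0 ha hη0 (by linarith) (by linarith) hβg hGeven hG2
            (FCH_num a h β η g κ G ha0 ha hκ hκ0 hgκ (by linarith) hG6 hβh) hE
        have hF2 : FF Γ μ a η G (Low Γ μ (β - g)) :=
          ih (β - g) _ hβg (by linarith) (by nlinarith) (hCOL Γ μ (β - g) hΓ hμ hinv hβg)
        refine FCH_mono Γ μ a η G E _ ?_ (hFUN Γ μ _ _ a η G hμ hF1 hF2)
        intro x hx
        by_cases hxL : x ∈ Low Γ μ (β - g)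
        · exact Or.inr hxL
        · exact Or.inl ⟨hx, hxL⟩
  obtain ⟨k, hk⟩ : ∃ k : ℕ, h / g ≤ (k : ℝ) := exists_nat_ge _
  have hk' : h ≤ (k : ℝ) * g := (div_le_iff₀ hg0).mp hk
  exact key k h E hh0 le_rfl (by linarith) hCO

end

end Pool.Agent.LP
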